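import Pool.Agent.Helper69.QG.St1

/-!
# Project QD, part C (MP_d112a4_gt): module LFN, local finiteness
-/

set_option autoImplicit false

open Complex Set Metric
open scoped ComplexConjugate

namespace Pool.Agent.Helper66.QG

open Pool.Agent.Helper69.QG

private theorem lf_act (w : W) : ∀ z y : DD,
    lf (Xm (act w z : DD)) (Xm (act w y : DD)) = lf (Xm z) (Xm y) := by
  apply cs.simple_induction (p := fun w => ∀ z y : DD,
    lf (Xm (act w z : DD)) (Xm (act w y : DD)) = lf (Xm z) (Xm y)) w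
  · intro s z y
    have h : act (cs.simple s) = Rp s := act_gen s
    rw [h, Xm_Rp, Xm_Rp, lf_rf_rf]
  · intro z y
    rw [map_one]
    rfl
  · intro w w' h h' z y
    rw [map_mul, Equiv.Perm.mul_apply, Equiv.Perm.mul_apply, h, h']

private theorem cs_bound (x y : V3) (hx : lf x x = -1) (hx0 : 0 < x 0) (hy : lf y y = -1) (hy0 : 0 < y 0) :
    (x 1 * y 1 + x 2 * y 2) ^ 2 ≤ (x 0 ^ 2 - 1) * (y 0 ^ 2 - 1) := by
  have h1 : x 0 ^ 2 - 1 = x 1 ^ 2 + x 2 ^ 2 := by unfold lf at hx; nlinarith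
  have h2 : y 0 ^ 2 - 1 = y 1 ^ 2 + y 2 ^ 2 := by unfold lf at hy; nlinarith
  rw [h1, h2]
  nlinarith [sq_nonneg (x 1 * y 2 - x 2 * y 1)]

private theorem bound1 (x y : V3) (hx : lf x x = -1) (hx0 : 0 < x 0) (hy : lf y y = -1) (hy0 : 0 < y 0) :
    y 0 ≤ 2 * x 0 * (-lf x y) := by
  have h := cs_bound x y hx hx0 hy hy0
  have h1 : x 0 ^ 2 - 1 = x 1 ^ 2 + x 2 ^ 2 := by unfold lf at hx; nlinarith
  have hx1 : 1 ≤ x 0 ^ 2 := by nlinarith [sq_nonneg (x 1), sq_nonneg (x 2)]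
  have h2 : (2 * x 0 * (x 1 * y 1 + x 2 * y 2)) ^ 2 ≤ ((2 * x 0 ^ 2 - 1) * y 0) ^ 2 := by
    have e1 : (2 * x 0 * (x 1 * y 1 + x 2 * y 2)) ^ 2 = 4 * x 0 ^ 2 * (x 1 * y 1 + x 2 * y 2) ^ 2 := by ring
    rw [e1]
    have e2 : 4 * x 0 ^ 2 * (x 1 * y 1 + x 2 * y 2) ^ 2 ≤ 4 * x 0 ^ 2 * ((x 0 ^ 2 - 1) * (y 0 ^ 2 - 1)) :=
      mul_le_mul_of_nonneg_left h (by positivity)
    have e3 : 0 ≤ 4 * x 0 ^ 2 * (x 0 ^ 2 - 1) := by
      apply mul_nonneg (by positivity)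
      linarith
    have e4 : 0 ≤ y 0 ^ 2 := sq_nonneg _
    have e5 : ((2 * x 0 ^ 2 - 1) * y 0) ^ 2 = 4 * x 0 ^ 2 * (x 0 ^ 2 - 1) * (y 0 ^ 2 - 1) +
        4 * x 0 ^ 2 * (x 0 ^ 2 - 1) + y 0 ^ 2 := by ring
    rw [e5]
    linarith
  have h3 : 0 ≤ (2 * x 0 ^ 2 - 1) * y 0 := mul_nonneg (by linarith) hy0.le
  have h4 := abs_le_of_sq_le_sq h2 h3
  have h5 := le_trans (le_abs_self _) h4
  unfold lf
  nlinarith

private theorem bound2 (x y : V3) (hx : lf x x = -1) (hx0 : 0 < x 0) (hy : lf y y = -1) (hy0 : 0 < y 0) :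
    0 ≤ -lf x y ∧ -lf x y ≤ 2 * (x 0 * y 0) := by
  have h := cs_bound x y hx hx0 hy hy0
  have h1 : x 0 ^ 2 - 1 = x 1 ^ 2 + x 2 ^ 2 := by unfold lf at hx; nlinarith
  have h1' : y 0 ^ 2 - 1 = y 1 ^ 2 + y 2 ^ 2 := by unfold lf at hy; nlinarith
  have h2 : (x 1 * y 1 + x 2 * y 2) ^ 2 ≤ (x 0 * y 0) ^ 2 := by
    have e1 : 0 ≤ x 0 ^ 2 - 1 := by rw [h1]; positivity
    have e2 : 0 ≤ y 0 ^ 2 - 1 := by rw [h1']; positivity
    have e3 : (x 0 * y 0) ^ 2 = (x 0 ^ 2 - 1) * (y 0 ^ 2 - 1) + (x 0 ^ 2 - 1) + (y 0 ^ 2 - 1) + 1 := by ring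
    rw [e3]
    linarith
  have h3 := abs_le_of_sq_le_sq h2 (mul_pos hx0 hy0).le
  rw [abs_le] at h3
  unfold lf
  constructor
  · linarith [h3.2]
  · linarith [h3.1]

private theorem height (z : DD) (n : ℝ) (hn : ‖(z : ℂ)‖ ^ 2 ≤ n) (hn1 : n < 1) :
    Xm z 0 ≤ (1 + n) / (1 - n) := by
  show (1 + ‖(z : ℂ)‖ ^ 2) / (1 - ‖(z : ℂ)‖ ^ 2) ≤ (1 + n) / (1 - n)
  apply div_le_div₀ _ _ _ _
  · have := sq_nonneg ‖(z : ℂ)‖
    linarith
  · linarith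
  · linarith
  · linarith

theorem cLFN (pbd : St_PBD) (lfz : St_LFZ) : St_LFN := by
  intro r hr
  obtain ⟨y, hy⟩ := pbd.2.2.1
  have hs2 : Real.sqrt 2 < 3 / 2 := by
    rw [Real.sqrt_lt' (by norm_num)]
    norm_num
  have hyh := Xm_hyp y.2
  refine (lfz y hy (2 * (2 / (1 - r ^ 2)) * (2 * (3 * Xm y 0)))).subset ?_
  rintro w ⟨z, hz, hzr⟩
  show Xm (act w y : DD) 0 ≤ _
  have hzh := Xm_hyp z.2
  have hwz := Xm_hyp (act w z : DD).2
  have hwy := Xm_hyp (act w y : DD).2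
  have hr0 : 0 ≤ r := (norm_nonneg _).trans hzr
  have hr2 : r ^ 2 < 1 := by nlinarith
  have b1 := bound1 _ _ hwz.1 hwz.2 hwy.1 hwy.2
  rw [lf_act w z y] at b1
  have b2 := bound2 _ _ hzh.1 hzh.2 hyh.1 hyh.2
  have h0 : Xm z 0 ≤ 3 := by
    refine (height z (1 / 2) ?_ (by norm_num)).trans (by norm_num)
    have := pbd.2.1 z hz
    linarith
  have h1 : Xm (act w z : DD) 0 ≤ 2 / (1 - r ^ 2) := by
    refine (height (act w z) (r ^ 2) (pow_le_pow_left₀ (norm_nonneg _) hzr 2) hr2).trans ?_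
    apply div_le_div_of_nonneg_right _ (by linarith)
    linarith
  calc Xm (act w y : DD) 0 ≤ 2 * Xm (act w z : DD) 0 * -lf (Xm z) (Xm y) := b1
    _ ≤ 2 * (2 / (1 - r ^ 2)) * (2 * (3 * Xm y 0)) := by
      apply mul_le_mul
      · linarith
      · refine b2.2.trans ?_
        have := mul_le_mul_of_nonneg_right h0 hyh.2.le
        linarith
      · exact b2.1
      · have : 0 < 1 - r ^ 2 := by linarith
        positivity

end Pool.Agent.Helper66.QG
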